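import Mathlib
import Pool.Agent.Results.MP_8f6377_al.NonInjectiveAntipode

set_option autoImplicit false

/-! Over every field, every affine Hopf algebra is a retract of an affine Hopf algebra whose antipode
is not injective. -/

namespace Pool.Agent.Results.MP_8f6377_al.HopfRetracts

open TensorProduct

universe u

section
variable {k : Type*} [Field k] {K H : Type*} [Ring K] [HopfAlgebra k K] [Ring H] [HopfAlgebra k H]

/-- The tensor product of two finitely generated algebras is finitely generated. -/
lemma finiteType_tensor (hK : Algebra.FiniteType k K) (hH : Algebra.FiniteType k H) :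
    Algebra.FiniteType k (K ⊗[k] H) := by
  obtain ⟨s, hs⟩ := hK.out
  obtain ⟨t, ht⟩ := hH.out
  let l : K →ₐ[k] K ⊗[k] H := Algebra.TensorProduct.includeLeft
  let r : H →ₐ[k] K ⊗[k] H := Algebra.TensorProduct.includeRight
  have hfin : (l '' (s : Set K) ∪ r '' (t : Set H)).Finite :=
    (s.finite_toSet.image _).union (t.finite_toSet.image _)
  refine ⟨⟨hfin.toFinset, ?_⟩⟩
  rw [Set.Finite.coe_toFinset, eq_top_iff]
  intro x _
  have hl : ∀ a, l a ∈ Algebra.adjoin k (l '' (s : Set K) ∪ r '' (t : Set H)) := by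
    intro a
    have h1 : l a ∈ (Algebra.adjoin k (s : Set K)).map l := ⟨a, by rw [hs]; trivial, rfl⟩
    rw [AlgHom.map_adjoin] at h1
    exact Algebra.adjoin_mono Set.subset_union_left h1
  have hr : ∀ a, r a ∈ Algebra.adjoin k (l '' (s : Set K) ∪ r '' (t : Set H)) := by
    intro a
    have h1 : r a ∈ (Algebra.adjoin k (t : Set H)).map r := ⟨a, by rw [ht]; trivial, rfl⟩
    rw [AlgHom.map_adjoin] at h1
    exact Algebra.adjoin_mono Set.subset_union_right h1
  induction x using TensorProduct.induction_on with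
  | zero => exact Subalgebra.zero_mem _
  | tmul a b =>
    have h1 : a ⊗ₜ[k] b = l a * r b := by
      change a ⊗ₜ[k] b = (a ⊗ₜ[k] (1 : H)) * ((1 : K) ⊗ₜ[k] b)
      rw [Algebra.TensorProduct.tmul_mul_tmul, mul_one, one_mul]
    rw [h1]
    exact Subalgebra.mul_mem _ (hl a) (hr b)
  | add x y hx hy => exact Subalgebra.add_mem _ (hx trivial) (hy trivial)

lemma tmul_ne {c : H} (hc : c ≠ 0) : (1 : K) ⊗ₜ[k] c ≠ 0 := by
  intro h
  have h1 := congrArg (TensorProduct.lid k H ∘ TensorProduct.map (Coalgebra.counit (R := k) (A := K))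
    (LinearMap.id : H →ₗ[k] H)) h
  simp only [Function.comp_apply, TensorProduct.map_tmul, Bialgebra.counit_one, map_zero,
    LinearMap.id_apply, TensorProduct.lid_tmul, one_smul] at h1
  exact hc h1

end

/-- Over every field `k`, for every affine Hopf algebra `K` there are an affine Hopf algebra `H`
whose antipode is not injective, and bialgebra homomorphisms `i : K → H` and `p : H → K` with
`p ∘ i = id`. -/
theorem result (k : Type) [Field k] (K : Type u) [Ring K] [HopfAlgebra k K]
    (hK : Algebra.FiniteType k K) :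
    ∃ (H : Type u) (_ : Ring H) (_ : HopfAlgebra k H),
      Algebra.FiniteType k H ∧
        ¬ Function.Injective (HopfAlgebraStruct.antipode k : H →ₗ[k] H) ∧
        ∃ (i : K →ₐc[k] H) (p : H →ₐc[k] K), p.comp i = BialgHom.id k K := by
  obtain ⟨H, _, _, hH, hinj⟩ := NonInjectiveAntipode.result k
  obtain ⟨c, hc0, hc⟩ : ∃ c : H, c ≠ 0 ∧ HopfAlgebraStruct.antipode k c = 0 := by
    rw [injective_iff_map_eq_zero] at hinj
    push_neg at hinj
    obtain ⟨c, h1, h2⟩ := hinj
    exact ⟨c, h2, h1⟩
  refine ⟨K ⊗[k] H, inferInstance, inferInstance, finiteType_tensor hK hH, fun h => ?_,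
    (Bialgebra.TensorProduct.map (BialgHom.id k K) (Bialgebra.unitBialgHom k H)).comp
      ((Bialgebra.TensorProduct.rid k k K).symm : K →ₐc[k] K ⊗[k] k),
    ((Bialgebra.TensorProduct.rid k k K) : K ⊗[k] k →ₐc[k] K).comp
      (Bialgebra.TensorProduct.map (BialgHom.id k K) (Bialgebra.counitBialgHom k H)), ?_⟩
  · apply tmul_ne (k := k) (K := K) hc0
    apply h
    rw [map_zero]
    change (HopfAlgebraStruct.antipode k (1 : K)) ⊗ₜ[k] (HopfAlgebraStruct.antipode k c) = 0
    rw [hc, tmul_zero]
  · apply DFunLike.ext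
    intro x
    simp

end Pool.Agent.Results.MP_8f6377_al.HopfRetracts
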