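import Pool.Agent.Y788.HA.Main

set_option autoImplicit false

/-! Over every nonzero commutative ring there is a Hopf algebra, finitely generated as an algebra,
whose antipode is surjective but not injective. -/

namespace Pool.Agent.Results.MP_8f6377_al.SurjectiveNonInjective

open Pool.Agent.Y788.HA
open scoped TensorProduct

section defs

variable (k H : Type) [CommRing k] [Ring H] [HopfAlgebra k H]

/-- The antipode of the Hopf algebra `H` over `k`, as a `k`-linear endomorphism. -/
noncomputable def S : Module.End k H := HopfAlgebraStruct.antipode k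

/-- The entries of the `12 × 12` matrix `x` satisfy `Δ x_ij = ∑_l x_il ⊗ x_lj` and
`ε x_ij = δ_ij`. -/
def MatrixCoalgebra (x : Fin 12 → Fin 12 → H) : Prop :=
  (∀ i j, CoalgebraStruct.comul (R := k) (x i j) = ∑ l, x i l ⊗ₜ[k] x l j) ∧
    ∀ i j, CoalgebraStruct.counit (R := k) (x i j) = if i = j then 1 else 0

/-- The algebra `H` is generated by the entries of the matrix `x`. -/
def Generates (x : Fin 12 → Fin 12 → H) : Prop :=
  Algebra.adjoin k (Set.range fun p : Fin 12 × Fin 12 => x p.1 p.2) = ⊤

/-- The kernels of the powers of the antipode form a strictly increasing chain. -/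
def KernelsIncrease : Prop :=
  ∀ n : ℕ, LinearMap.ker (S k H ^ n) < LinearMap.ker (S k H ^ (n + 1))

/-- The square of the antipode is a surjective, not injective endomorphism of the bialgebra. -/
def SquareEndomorphism : Prop :=
  ∃ φ : H →ₐc[k] H, (∀ a, φ a = S k H (S k H a)) ∧
    Function.Surjective φ ∧ ¬ Function.Injective φ

end defs

/-- **Negative answer to Q1, strong form.** Over every nonzero commutative ring `k` there is a Hopf
algebra `H` and a `12 × 12` matrix `x` over `H`, whose entries span a matrix subcoalgebra and
generate `H` as an algebra, such that the antipode `S` of `H` is surjective but not injective; the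
kernels of the powers of `S` form a strictly increasing chain, `S²` is a surjective, not injective
endomorphism of the bialgebra `H`, and `H` is neither left nor right noetherian. -/
theorem result (k : Type) [CommRing k] [Nontrivial k] :
    ∃ (H : Type) (_ : Ring H) (_ : HopfAlgebra k H),
      Algebra.FiniteType k H ∧
      (∃ x : Fin 12 → Fin 12 → H, MatrixCoalgebra k H x ∧ Generates k H x) ∧
      Function.Surjective (S k H) ∧ ¬ Function.Injective (S k H) ∧
      KernelsIncrease k H ∧ SquareEndomorphism k H ∧
      ¬ IsNoetherianRing H ∧ ¬ IsNoetherianRing Hᵐᵒᵖ := by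
  refine ⟨Hw k, inferInstance, hopf (Fw k), finiteType,
    ⟨fun i j => G (Tw k) 0 i j, ⟨fun i j => comulH_G (T := Tw k) 0 i j,
      fun i j => counitH_G (T := Tw k) 0 i j⟩, Sub0_top⟩,
    anti_surjective, anti_not_injective,
    ker_lt (anti (Fw k)) anti_surjective anti_not_injective,
    ⟨sqBi (Fw k), fun a => rfl, ?_, ?_⟩,
    not_noeth (anti (Fw k)) anti_surjective anti_not_injective (anti_mul (Fw k)),
    not_noeth' (anti (Fw k)) anti_surjective anti_not_injective (anti_mul (Fw k))⟩
  · intro a
    obtain ⟨b, hb⟩ := anti_surjective (k := k) a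
    obtain ⟨c, hc⟩ := anti_surjective (k := k) b
    refine ⟨c, ?_⟩
    show anti (Fw k) (anti (Fw k) c) = a
    rw [hc, hb]
  · intro h
    apply anti_not_injective (k := k)
    intro a b hab
    apply h
    show anti (Fw k) (anti (Fw k) a) = anti (Fw k) (anti (Fw k) b)
    rw [hab]

end Pool.Agent.Results.MP_8f6377_al.SurjectiveNonInjective
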